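import Pool.Agent.H31R3.Boards

set_option autoImplicit false

/-! A payoff set whose multiboard game is undetermined on countably many boards, and won by ONE as
soon as there are uncountably many boards. -/

namespace Pool.Agent.Results.MP_801c54_lc.UncountableBoards

/-- ONE has a winning strategy in the game with payoff set `S` played on the set `K` of boards:
a function `σ` from finite sequences of moves to moves such that in each play `f` (of which ONE makes
the moves `f 0, f 2, f 4, …`) in which ONE follows `σ`, the moves on at least one board form a member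
of `S`. -/
def OneWins (K : Type) (S : Set (ℕ → ℕ)) : Prop :=
  ∃ σ : List (K → ℕ) → (K → ℕ), ∀ f : ℕ → K → ℕ,
    (∀ n : ℕ, f (2 * n) = σ (List.ofFn (fun i : Fin (2 * n) => f i))) →
      ∃ α : K, (fun n : ℕ => f n α) ∈ S

/-- TWO has a winning strategy in the game with payoff set `S` played on the set `K` of boards:
a function `τ` from finite sequences of moves to moves such that in each play `f` (of which TWO makes
the moves `f 1, f 3, f 5, …`) in which TWO follows `τ`, the moves on no board form a member
of `S`. -/
def TwoWins (K : Type) (S : Set (ℕ → ℕ)) : Prop :=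
  ∃ τ : List (K → ℕ) → (K → ℕ), ∀ f : ℕ → K → ℕ,
    (∀ n : ℕ, f (2 * n + 1) = τ (List.ofFn (fun i : Fin (2 * n + 1) => f i))) →
      ∀ α : K, (fun n : ℕ => f n α) ∉ S

theorem result : ∃ S : Set (ℕ → ℕ),
    (∀ K : Type, Uncountable K → OneWins K S) ∧
    (∀ K : Type, Nonempty K → Countable K → ¬ (OneWins K S ∨ TwoWins K S)) := by
  obtain ⟨T, hT⟩ := Pool.Agent.H31R3.Boards.exists_T
  refine ⟨Pool.Agent.H31R3.Boards.Pay T, fun K hK =>
    Pool.Agent.H31R3.Boards.oneWins_uncountable T K hK, fun K hK hc h => ?_⟩
  rcases h with h | h
  · obtain ⟨i, hi⟩ := hc.exists_injective_nat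
    exact hT (Pool.Agent.H31R3.Boards.oneWins_mono i hi h)
  · exact Pool.Agent.H31R3.Boards.not_twoWins T K hK h

end Pool.Agent.Results.MP_801c54_lc.UncountableBoards
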